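import Pool.Agent.MP_b9845b_al.H94.Final

set_option autoImplicit false

namespace Pool.Agent.Results.MP_b9845b_al.Monoid

open Relation

/-- one rewriting step: replace one occurrence of a left side by the matching right side -/
def Rw {A : Type} (R : Set (FreeMonoid A × FreeMonoid A)) (u v : FreeMonoid A) : Prop :=
  ∃ x y : FreeMonoid A, ∃ p ∈ R, u = x * p.1 * y ∧ v = x * p.2 * y

/-- terminating and confluent -/
def Complete {A : Type} (R : Set (FreeMonoid A × FreeMonoid A)) : Prop :=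
  (¬ ∃ u : ℕ → FreeMonoid A, ∀ n, Rw R (u n) (u (n + 1))) ∧
    ∀ u v w, ReflTransGen (Rw R) u v → ReflTransGen (Rw R) u w →
      ∃ z, ReflTransGen (Rw R) v z ∧ ReflTransGen (Rw R) w z

theorem result (X : Type) [Finite X] (r : FreeGroup X) :
    ∃ (A : Type) (R : Set (FreeMonoid A × FreeMonoid A)), Finite A ∧ R.Finite ∧ Complete R ∧
      Nonempty (PresentedMonoid (fun l ρ : FreeMonoid A => (l, ρ) ∈ R) ≃*
        PresentedGroup ({r} : Set (FreeGroup X))) := by
  obtain ⟨S⟩ := MP_b9845b_al.H94.exists_sys (MP_b9845b_al.H94.isOR_presented r)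
  refine ⟨S.A, S.R, inferInstance, S.Rfin, ⟨?_, fun u v w h1 h2 => S.confluent h1 h2⟩, ?_⟩
  · rintro ⟨u, hu⟩
    exact (wellFounded_iff_isEmpty_descending_chain.mp S.wf).false ⟨u, hu⟩
  · have ev : ∀ w : FreeMonoid S.A, FreeMonoid.lift S.φ w = MP_b9845b_al.H94.ev S.φ w :=
      fun w => FreeMonoid.lift_apply _ _
    refine ⟨MulEquiv.ofBijective (PresentedMonoid.lift S.φ fun a b h => ?_) ⟨fun a b h => ?_,
      fun g => ?_⟩⟩
    · rw [ev, ev]
      exact (S.ev_eq_iff _ _).mpr (ReflTransGen.single (Or.inl ⟨[], [], (a, b), h,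
        by simp, by simp⟩))
    · obtain ⟨a, rfl⟩ := PresentedMonoid.surjective_mk a
      obtain ⟨b, rfl⟩ := PresentedMonoid.surjective_mk b
      have h' : MP_b9845b_al.H94.ev S.φ a = MP_b9845b_al.H94.ev S.φ b := by
        rw [← ev, ← ev]
        exact h
      have st : ∀ u v : FreeMonoid S.A, Rw S.R u v →
          PresentedMonoid.mk (fun l ρ : FreeMonoid S.A => (l, ρ) ∈ S.R) u =
            PresentedMonoid.mk (fun l ρ : FreeMonoid S.A => (l, ρ) ∈ S.R) v := by
        rintro _ _ ⟨x, y, p, hp, rfl, rfl⟩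
        simp only [map_mul]
        rw [PresentedMonoid.mk_eq_mk_of_rel (x := p.1) (y := p.2) hp]
      have := (S.ev_eq_iff _ _).mp h'
      clear h h'
      induction this with
      | refl => rfl
      | tail _ h ih => exact ih.trans (h.elim (st _ _) fun h => (st _ _ h).symm)
    · obtain ⟨w, hw⟩ := S.surj g
      exact ⟨PresentedMonoid.mk _ w, (ev w).trans hw⟩

end Pool.Agent.Results.MP_b9845b_al.Monoid
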